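import Mathlib
import Pool.Agent.Results.MP_d37f77_nt.AlmostAllTwists
import Pool.Agent.Results.MP_d37f77_nt.TwoDescentMixedFactors
import Pool.Agent.V11109.DEC.Law

/-!
# 2-descent on almost all quadratic twists by the terms of sparse sequences

Let `p > 1` be a real number. There is a set `A₀` of real numbers of Hausdorff dimension smaller than
one such that the following holds for all `α > 0` outside `A₀`, with `t_j = ⌊α j ^ p⌋` (there are about
`X ^ (1 / p)` terms up to `X`). Let `f_k ∈ ℤ[x]`, `k < n`, be irreducible over `ℚ` and pairwise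
non-associated, either all of even degrees, or of even total degree, at least four of them of odd degree
and with a condition on the linear factors, and let `C d` be the curve `d y² = ∏ F_k (x, w)`, `F_k` the
homogenisation. Then for every nonzero integer `e` and for all `j ≤ N` for which `d = e t_j` is squarefree,
with at most `C N (log N) ^ (-δ)` exceptions, the coverings `F_k (x, w) = δ_k y_k²` of `C d` with points
everywhere locally are of constant type (so they have rational points over rational Weierstrass points of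
`C d`); there is no such covering, and so no rational point on `C d`, if no factor is linear. At least a
third of the `t_j` are squarefree.
-/

set_option autoImplicit false

namespace Pool.Agent.Results.MP_d37f77_nt.DescentAlongSequences

open Finset Polynomial

open Pool.Agent.V11109.DEC (term Rare ManySquarefree)

/-- `d` is squarefree and some 2-covering of `C d` has points everywhere locally -/
def Bad {n : ℕ} (f : Fin n → ℤ[X]) (d : ℤ) : Prop :=
  Squarefree d ∧ AlmostAllTwists.SelmerNonempty f d

/-- `d` is squarefree and some 2-covering of `C d` which is not of constant type has points everywhere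
locally -/
def BadMixed {n : ℕ} (f : Fin n → ℤ[X]) (d : ℤ) : Prop :=
  Squarefree d ∧ ∃ δ : Fin n → ℤ, TwoDescentMixedFactors.Soluble f d δ ∧
    ¬ TwoDescentMixedFactors.ConstantType f δ

/-- `d` is squarefree and some 2-covering of `C d` has points everywhere locally -/
def BadNoLinear {n : ℕ} (f : Fin n → ℤ[X]) (d : ℤ) : Prop :=
  Squarefree d ∧ ∃ δ : Fin n → ℤ, TwoDescentMixedFactors.Soluble f d δ

/-- **Main result.** For every real `p > 1` there is a set `A₀` of real numbers of Hausdorff dimension
smaller than one such that: at least `N / 3` of the `t_j`, `j ≤ N`, are squarefree (`α > 0` outside `A₀`,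
`N` large); for all `f` with irreducible, pairwise non-associated factors of even degrees there is `δ > 0`
such that the bad integers are rare along the sequences `e t_j` with the exponent `δ`; the same for all
`f` with irreducible, pairwise non-associated factors of even total degree, at least four of them of odd
degree, with the condition `General` on the linear factors, and for those without linear factors; if `d` is
nonzero and not bad then `C d` has no rational point, in the cases without linear factors. -/
theorem result (p : ℝ) (hp : 1 < p) : ∃ A₀ : Set ℝ, dimH A₀ < 1 ∧ ManySquarefree p A₀ ∧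
    (∀ (n : ℕ) (f : Fin n → ℤ[X]), AlmostAllTwists.Adm f →
      (∃ δ : ℝ, 0 < δ ∧ Rare p A₀ δ (Bad f)) ∧
      ∀ d : ℤ, Squarefree d → AlmostAllTwists.CurveHasPoint f d ℚ → Bad f d) ∧
    (∀ (n : ℕ) (f : Fin n → ℤ[X]), TwoDescentMixedFactors.Factors f →
      TwoDescentMixedFactors.General f →
      (∃ δ : ℝ, 0 < δ ∧ Rare p A₀ δ (BadMixed f)) ∧
      ∀ δ : Fin n → ℤ, (∀ k, δ k ≠ 0) → TwoDescentMixedFactors.ConstantType f δ →
        TwoDescentMixedFactors.CoveringHasPoint f δ ℚ) ∧
    ∀ (n : ℕ) (f : Fin n → ℤ[X]), TwoDescentMixedFactors.Factors f →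
      (∀ k, (f k).natDegree ≠ 1) →
      (∃ δ : ℝ, 0 < δ ∧ Rare p A₀ δ (BadNoLinear f)) ∧
      ∀ d : ℤ, Squarefree d → TwoDescentMixedFactors.CurveHasPoint f d ℚ → BadNoLinear f d := by
  have hcp := Pool.Agent.V11109.TWI.countable_poly
  obtain ⟨A₀, hA₀, hsq, h⟩ := Pool.Agent.V11109.DEC.rare p hp
    (fun v : (Σ n : ℕ, Fin n → ℤ[X]) × Fin 3 => if v.2 = 0 then Bad v.1.2 else
      if v.2 = 1 then BadMixed v.1.2 else BadNoLinear v.1.2)
  refine ⟨A₀, hA₀, hsq, fun n f hf => ⟨?_, fun d hd h1 => ⟨hd, ?_⟩⟩, fun n f hf hg => ⟨?_, ?_⟩,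
    fun n f hf hl => ⟨?_, fun d hd h1 => ⟨hd, ?_⟩⟩⟩
  · obtain ⟨⟨δ, hδ, C, hC⟩, -⟩ := AlmostAllTwists.result.1 (Fin n) f hf
    exact ⟨δ, hδ, h ⟨⟨n, f⟩, 0⟩ C δ hδ.le fun X hX => hC X (by omega)⟩
  · exact (AlmostAllTwists.result.1 (Fin n) f hf).2 d h1
  · obtain ⟨⟨δ, hδ, C, hC⟩, -⟩ := TwoDescentMixedFactors.result.1 (Fin n) f hf hg
    exact ⟨δ, hδ, h ⟨⟨n, f⟩, 1⟩ C δ hδ.le hC⟩
  · exact (TwoDescentMixedFactors.result.1 (Fin n) f hf hg).2
  · obtain ⟨⟨δ, hδ, C, hC⟩, -⟩ := TwoDescentMixedFactors.result.2.1 (Fin n) f hf hl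
    exact ⟨δ, hδ, h ⟨⟨n, f⟩, 2⟩ C δ hδ.le hC⟩
  · exact (TwoDescentMixedFactors.result.2.1 (Fin n) f hf hl).2 d h1

end Pool.Agent.Results.MP_d37f77_nt.DescentAlongSequences
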