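import Pool.Agent.Results.MP_d37f77_nt.SelmerSetsOverExtensions
import Pool.Agent.H107.EpsZero2

/-!
# Finite descent on the members of a family of curves close to a point

`E : y² = x³ + a x + b` is an elliptic curve over a number field `K` (any rank) whose Tate-Shafarevich group over `K` is
killed by some `M₀ ≥ 1`, and `X` is a closed subset of `E ^ r × ℙ ^ n` over `K`, a family of closed subsets `X_y ⊆ E ^ r`
(for example curves) with parameter space `ℙ ^ n`. Suppose that for all `1 ≤ m ≤ M` every complex point `S` of `E ^ r` is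
a sum of `m` points of `X_y` for at most `D` points `y`.

Let `φ` be any map from `ℙ ^ n (K)` to a metric space `X`, for example to the projective space over any completion of `K`.
There is a set of Hausdorff dimension zero such that for all `z` outside of it and all `w, δ > 0` (arbitrarily small) there
is a constant `C` with the following property. For ALL but finitely many of the points `y` in `ℙ ^ n (K)` at distance at
most `H(y) ^ (-w)` from `z` there is ONE level `N ≤ C H(y) ^ δ` such that for ALL extensions `F` of `K` of degree at most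
`M` the `N`-Selmer set of `X_y` over `F` is empty: no `N`-covering of `E ^ r` over `F` has a pull-back to `X_y` with points
over all completions of `F` at finite places.

The input is the starting result `SelmerSetsOverExtensions`, with `O(B ^ ε)` exceptions `y` of height at most `B` and a
level which depends on `B`.
-/

set_option autoImplicit false

namespace Pool.Agent.Results.MP_d37f77_nt.SelmerSetsNearPoints

open MvPolynomial NumberField IsDedekindDomain Pool.Agent.TH954

open scoped LinearAlgebra.Projectivization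

open Pool.Agent.Results.MP_d37f77_nt.SelmerSetsOverExtensions (Sel MultiHomog IsSum curve)

/-- the `N`-Selmer sets of `X_y` over all extensions `F` of `K` of degree at most `M` are empty -/
def NoSel {K : Type} [Field K] [NumberField K] (a b : 𝓞 K) {r n q : ℕ}
    (G : Fin q → MvPolynomial ((Fin r × Fin 3) ⊕ Fin (n + 1)) (𝓞 K)) (M N : ℕ) (y : ℙ K (Fin (n + 1) → K)) : Prop :=
  ∀ (F : Type) [Field F] [NumberField F] [Algebra K F], Module.finrank K F ≤ M → Sel a b G F N y = ∅

/-- **Theorem.** Outside of a set `E` of Hausdorff dimension zero, for all `z` and all `w, δ > 0`, all but finitely many of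
the points `y` with `dist (φ y, z) ≤ H(y) ^ (-w)` have a level `N ≤ C H(y) ^ δ` with `NoSel`. -/
theorem result (K : Type) [Field K] [NumberField K] (a b : 𝓞 K)
    (hE : 4 * a ^ 3 + 27 * b ^ 2 ≠ 0) (M₀ : ℕ) (hM1 : 1 ≤ M₀)
    (hM : ShaKilledBy (curve (a : K) (b : K)) M₀) (r n q : ℕ)
    (G : Fin q → MvPolynomial ((Fin r × Fin 3) ⊕ Fin (n + 1)) (𝓞 K))
    (d : Fin q → Fin r → ℕ) (deg : Fin q → ℕ) (hG : ∀ e, MultiHomog (G e) (d e) (deg e))
    (σ : K →+* ℂ) (M D : ℕ)
    (hX : ∀ m, 1 ≤ m → m ≤ M → ∀ S : Fin r → (curve (σ a) (σ b)).toAffine.Point,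
      {y : ℙ ℂ (Fin (n + 1) → ℂ) | IsSum σ a b G m S y.rep}.encard ≤ D)
    (X : Type) [MetricSpace X] (φ : ℙ K (Fin (n + 1) → K) → X) :
    ∃ E : Set X, dimH E = 0 ∧ ∀ z ∉ E, ∀ w : ℝ, 0 < w → ∀ δ : ℝ, 0 < δ → ∃ C : ℕ,
      {y : ℙ K (Fin (n + 1) → K) | (¬ ∃ N : ℕ, 1 ≤ N ∧ (N : ℝ) ≤ C * y.mulHeight ^ δ ∧ NoSel a b G M N y) ∧
        dist (φ y) z ≤ y.mulHeight ^ (-w)}.Finite := by
  have hQ : ∀ e : ℝ, 0 < e → ∃ C : ℝ, ∀ B : ℝ, 1 ≤ B → ∃ N : ℕ, 1 ≤ N ∧ (N : ℝ) ≤ C * B ^ e ∧
      ∃ Z : Finset (ℙ K (Fin (n + 1) → K)), (Z.card : ℝ) ≤ C * B ^ e ∧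
        ∀ y : ℙ K (Fin (n + 1) → K), y.mulHeight ≤ B → y ∉ Z → NoSel a b G M N y := by
    intro e he
    obtain ⟨C, hC⟩ := Pool.Agent.Results.MP_d37f77_nt.SelmerSetsOverExtensions.result K a b hE M₀ hM1 hM r n q G d
      deg hG σ M D hX e he
    refine ⟨C, fun B hB => ?_⟩
    obtain ⟨N, g1, g2, Z, g3, g4⟩ := hC B hB
    exact ⟨N, g1, g2, Z, g3, fun y hy hyZ F _ _ _ hF => g4 y hy hyZ F hF⟩
  obtain ⟨E, h1, h2⟩ := Pool.Agent.H107.ME.dim_zero_countable (ι := ℕ) (fun _ => φ) (fun _ y => y.mulHeight)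
    (fun _ y => y.one_le_mulHeight)
    (fun j R => {y : ℙ K (Fin (n + 1) → K) |
      ¬ ∃ N : ℕ, 1 ≤ N ∧ (N : ℝ) ≤ R * y.mulHeight ^ (1 / ((j : ℝ) + 1)) ∧ NoSel a b G M N y})
    (fun j ε hε => Pool.Agent.H107.ME.levels (fun y : ℙ K (Fin (n + 1) → K) => y.mulHeight)
      (fun y => y.one_le_mulHeight) (fun N y => NoSel a b G M N y) hQ (by positivity) ε hε)
  refine ⟨E, h1, fun z hz w hw δ hδ => ?_⟩
  obtain ⟨j, hj⟩ := exists_nat_one_div_lt hδ
  obtain ⟨R, hR⟩ := h2 z hz j w hw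
  refine ⟨R, hR.subset ?_⟩
  rintro y ⟨hy, hyz⟩
  refine ⟨fun hN => hy ?_, hyz⟩
  obtain ⟨N, g1, g2, g3⟩ := hN
  refine ⟨N, g1, g2.trans ?_, g3⟩
  exact mul_le_mul_of_nonneg_left (Real.rpow_le_rpow_of_exponent_le y.one_le_mulHeight hj.le) (Nat.cast_nonneg _)

end Pool.Agent.Results.MP_d37f77_nt.SelmerSetsNearPoints
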